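import Pool.Agent.Zk14.BarM.Sys

/-!
# The systems for the cliques on four and five vertices
-/

set_option autoImplicit false
open Finset

namespace Pool.Agent.Zk14.BarM

open Pool.Agent.Zk14.Bar (Flag IsPSD pull square value TetraFree Str mem_Str pull_Str Str_congr
  Symm3 tot bi view Good triple_mem_Str)

/-! ### Counting -/

section count

variable {B : Type} [Fintype B]

/-- The number of edges with `k` tiny blocks. -/
def cntg (G : B → B → B → Bool) (dg a : B → ℕ) (k : ℕ) : ℕ :=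
  ∑ x, ∑ y, ∑ z, if G x y z = true ∧ dg x + dg y + dg z = k then a x * a y * a z else 0

/-- The number of blocks. -/
def cnt1g (dg a : B → ℕ) (k : ℕ) : ℕ := ∑ x, if dg x = k then a x else 0

theorem tot_wtg {dg : B → ℕ} (hdg : ∀ x, dg x ≤ 1) (a : B → ℕ) (u : ℝ) :
    tot (wtg dg a u) = (cnt1g dg a 0 : ℝ) + (cnt1g dg a 1 : ℝ) * u := by
  unfold tot cnt1g wtg
  push_cast
  rw [sum_mul, ← sum_add_distrib]
  refine sum_congr rfl fun b _ => ?_
  have h := hdg b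
  have h2 : dg b = 0 ∨ dg b = 1 := by omega
  rcases h2 with h2 | h2 <;> simp [h2]

theorem dens_wtg {G : B → B → B → Bool} {dg : B → ℕ} (hdg : ∀ x, dg x ≤ 1) (a : B → ℕ) (u : ℝ) :
    Pool.Agent.Zk14.Bar.dens G (wtg dg a u) = (cntg G dg a 0 : ℝ) + (cntg G dg a 1 : ℝ) * u +
      (cntg G dg a 2 : ℝ) * u ^ 2 + (cntg G dg a 3 : ℝ) * u ^ 3 := by
  unfold Pool.Agent.Zk14.Bar.dens cntg wtg
  push_cast
  simp only [sum_mul, ← sum_add_distrib]
  refine sum_congr rfl fun x _ => sum_congr rfl fun y _ => sum_congr rfl fun z _ => ?_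
  have hx : dg x = 0 ∨ dg x = 1 := by have := hdg x; omega
  have hy : dg y = 0 ∨ dg y = 1 := by have := hdg y; omega
  have hz : dg z = 0 ∨ dg z = 1 := by have := hdg z; omega
  by_cases hG : G x y z = true
  · rw [hG]
    rcases hx with hx | hx <;> rcases hy with hy | hy <;> rcases hz with hz | hz <;>
      simp [hx, hy, hz, bi] <;> ring
  · rw [Bool.not_eq_true] at hG
    rw [hG]
    simp [bi]

end count

/-! ### Four vertices -/

theorem sys4 : Sys Pool.Agent.Zk14.Bar.pat Pool.Agent.Zk14.Bar.dg Pool.Agent.Zk14.Bar.aP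
    Pool.Agent.Zk14.Bar.a1 Pool.Agent.Zk14.Bar.a2 Pool.Agent.Zk14.Bar.a3 Pool.Agent.Zk14.Bar.b1
    Pool.Agent.Zk14.Bar.b2 3 2 6 := by
  refine ⟨Pool.Agent.Zk14.Bar.pat_symm, Pool.Agent.Zk14.Bar.dg_le, ?_, ?_, ?_, ?_, ?_, ?_, ?_,
    ?_, ?_, ?_, ?_, ?_, ?_, ?_, ?_⟩
  · exact ⟨Pool.Agent.Zk14.Bar.comp1.invo, Pool.Agent.Zk14.Bar.comp1.supp,
      Pool.Agent.Zk14.Bar.comp1.deg, Pool.Agent.Zk14.Bar.comp1.fix⟩
  · exact ⟨Pool.Agent.Zk14.Bar.comp2.invo, Pool.Agent.Zk14.Bar.comp2.supp,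
      Pool.Agent.Zk14.Bar.comp2.deg, Pool.Agent.Zk14.Bar.comp2.fix⟩
  · exact fun x hx => (Pool.Agent.Zk14.Bar.ok_large1 x hx).1
  · exact fun x hx => (Pool.Agent.Zk14.Bar.ok_large2 x hx).1
  · intro x hx
    rw [Pool.Agent.Zk14.Bar.a_large x hx]
    rfl
  · exact Pool.Agent.Zk14.Bar.aP_le
  · intro x hx h
    have hP := Pool.Agent.Zk14.Bar.aP_le x
    have h1 := Pool.Agent.Zk14.Bar.ok_tiny x hx (fun h' => h ⟨h'.1, by rw [h'.2]; exact hP⟩)
    exact ⟨h1.1, by rw [h1.2]; exact hP⟩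
  · intro t
    have h := Pool.Agent.Zk14.Bar.tot_P t
    rw [one_mul] at h
    exact h
  · intro t
    have h := Pool.Agent.Zk14.Bar.ext1.tot t
    rw [one_mul] at h
    exact h
  · intro t
    have h := Pool.Agent.Zk14.Bar.ext2.tot t
    rw [one_mul] at h
    exact h
  · intro t
    have h := Pool.Agent.Zk14.Bar.ext3.tot t
    rw [show (1 / 2 : ℝ) * t = t / 2 by ring] at h
    exact h
  · intro t
    have h := Pool.Agent.Zk14.Bar.dens_P t
    rw [one_mul] at h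
    refine Eq.trans h ?_
    norm_num
  · intro t
    have h := Pool.Agent.Zk14.Bar.ext1.dens t
    rw [one_mul] at h
    refine Eq.trans h ?_
    norm_num
  · intro t
    have h := Pool.Agent.Zk14.Bar.ext2.dens t
    rw [one_mul] at h
    refine Eq.trans h ?_
    norm_num
  · intro t
    have h := Pool.Agent.Zk14.Bar.ext3.dens t
    rw [show (1 / 2 : ℝ) * t = t / 2 by ring] at h
    refine Eq.trans h ?_
    norm_num

/-! ### Five vertices

The pattern has 11 blocks. The large blocks `0, 1, 2, 3` (with the non-edges `i i i` and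
`i i (i + 1)` mod 4) have density `3 / 4` and no clique on five vertices. The tiny blocks are of two
types: the non-edges which contain `4`, `5` or `7` and two large blocks are `0 2`, `1 1`, `3 3`, and
those with `6`, `8`, `9` or `10` and two large blocks are `1 3`, `0 0`, `2 2`. -/

/-- The table of the edges of the pattern. -/
def tbl5 : ℕ :=
  0x3506a00000000c7f8fc1ee3b06f8f81a8350000000063fc7e0f71d837c7c000000c52fe7e87f8ff1fa6ec7b9be000000bf87a37e7d4fa9c72fc734bd8000007e8df93539e73cde8fb36e3fb1fe3f1fe7d4e7f8af15ddfe777df978ff1f8ff3ea73fc578aeeff3bbefcb07a0f47e9c737bddfbbf46ff62fffbe3bc766ecbf0fbf9df3bfd8b3ffbd3c1b8371ee734dbf7defa2fffef49ffd8fb1f1be2f63fbe5fcbfefd3fff0bc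

/-- The pattern. -/
def pat5 (x y z : Fin 11) : Bool := Nat.testBit tbl5 (11 * (11 * x.val + y.val) + z.val)

/-- Large and tiny blocks. -/
def dg5 (b : Fin 11) : ℕ := ![0, 0, 0, 0, 1, 1, 1, 1, 1, 1, 1] b

/-- The perturbed pattern. -/
def p5 (b : Fin 11) : ℕ := ![1, 1, 1, 1, 1, 1, 1, 0, 1, 0, 0] b

/-- The first extremal pattern. -/
def q5 (b : Fin 11) : ℕ := ![1, 1, 1, 1, 1, 1, 0, 0, 0, 1, 1] b

/-- The second extremal pattern. -/
def r5 (b : Fin 11) : ℕ := ![1, 1, 1, 1, 1, 0, 1, 1, 1, 0, 0] b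

/-- The third extremal pattern. -/
def s5 (b : Fin 11) : ℕ := ![1, 1, 1, 1, 1, 1, 2, 2, 2, 0, 0] b

/-- The first comparison. -/
def g5 (b : Fin 11) : Fin 11 := ![0, 1, 2, 3, 4, 5, 9, 7, 10, 6, 8] b

/-- The second comparison. -/
def h5 (b : Fin 11) : Fin 11 := ![0, 1, 2, 3, 4, 7, 6, 5, 8, 9, 10] b

theorem cnt5P : cntg pat5 dg5 p5 0 = 48 ∧ cntg pat5 dg5 p5 1 = 144 ∧ cntg pat5 dg5 p5 2 = 144 ∧
    cntg pat5 dg5 p5 3 = 36 := by decide +kernel

theorem cnt5q : cntg pat5 dg5 q5 0 = 48 ∧ cntg pat5 dg5 q5 1 = 144 ∧ cntg pat5 dg5 q5 2 = 144 ∧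
    cntg pat5 dg5 q5 3 = 48 := by decide +kernel

theorem cnt5r : cntg pat5 dg5 r5 0 = 48 ∧ cntg pat5 dg5 r5 1 = 144 ∧ cntg pat5 dg5 r5 2 = 144 ∧
    cntg pat5 dg5 r5 3 = 48 := by decide +kernel

theorem cnt5s : cntg pat5 dg5 s5 0 = 48 ∧ cntg pat5 dg5 s5 1 = 288 ∧ cntg pat5 dg5 s5 2 = 576 ∧
    cntg pat5 dg5 s5 3 = 384 := by decide +kernel

theorem num5 : (cnt1g dg5 p5 0 = 4 ∧ cnt1g dg5 p5 1 = 4) ∧
    (cnt1g dg5 q5 0 = 4 ∧ cnt1g dg5 q5 1 = 4) ∧ (cnt1g dg5 r5 0 = 4 ∧ cnt1g dg5 r5 1 = 4) ∧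
    (cnt1g dg5 s5 0 = 4 ∧ cnt1g dg5 s5 1 = 8) := by decide +kernel

theorem pat5_symm : Symm3 pat5 := ⟨by decide +kernel, by decide +kernel⟩

theorem dg5_le : ∀ x, dg5 x ≤ 1 := by decide +kernel

theorem pat5_good : ∀ x y z : Fin 11, pat5 x y z = true → ∀ w : Fin 11, pat5 x y w = true →
    pat5 x z w = true → pat5 y z w = true → ∀ v : Fin 11, pat5 x y v = true →
    pat5 x z v = true → pat5 y z v = true → pat5 x w v = true → pat5 y w v = true →
    pat5 z w v = false := by decide +kernel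

instance (x : Fin 11) (β : Fin 11 → Fin 11) : Decidable (Ok pat5 dg5 p5 β x) := by
  unfold Ok; infer_instance

theorem sys5 : Sys pat5 dg5 p5 q5 r5 s5 g5 h5 4 1 12 := by
  refine ⟨pat5_symm, dg5_le, ?_, ?_, ?_, ?_, ?_, ?_, ?_,
    ?_, ?_, ?_, ?_, ?_, ?_, ?_, ?_⟩
  · exact ⟨by decide +kernel, by decide +kernel, by decide +kernel, by decide +kernel⟩
  · exact ⟨by decide +kernel, by decide +kernel, by decide +kernel, by decide +kernel⟩
  · decide +kernel
  · decide +kernel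
  · decide +kernel
  · decide +kernel
  · decide +kernel
  · intro t
    rw [tot_wtg dg5_le, num5.1.1, num5.1.2]
    push_cast
    ring
  · intro t
    rw [tot_wtg dg5_le, num5.2.1.1, num5.2.1.2]
    push_cast
    ring
  · intro t
    rw [tot_wtg dg5_le, num5.2.2.1.1, num5.2.2.1.2]
    push_cast
    ring
  · intro t
    rw [tot_wtg dg5_le, num5.2.2.2.1, num5.2.2.2.2]
    push_cast
    ring
  · intro t
    rw [dens_wtg dg5_le, cnt5P.1, cnt5P.2.1, cnt5P.2.2.1, cnt5P.2.2.2]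
    push_cast
    ring
  · intro t
    rw [dens_wtg dg5_le, cnt5q.1, cnt5q.2.1, cnt5q.2.2.1, cnt5q.2.2.2]
    push_cast
    ring
  · intro t
    rw [dens_wtg dg5_le, cnt5r.1, cnt5r.2.1, cnt5r.2.2.1, cnt5r.2.2.2]
    push_cast
    ring
  · intro t
    rw [dens_wtg dg5_le, cnt5s.1, cnt5s.2.1, cnt5s.2.2.1, cnt5s.2.2.2]
    push_cast
    ring

/-! ### Cliques -/

/-- No `k` vertices of a 3-graph with this pattern form a clique. -/
def NoClique {B : Type} (G : B → B → B → Bool) (k : ℕ) : Prop :=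
  ∀ (n : ℕ) (τ : Fin n → B) (K : Finset (Fin n)), k ≤ K.card →
    ∃ e, e ⊆ K ∧ e.card = 3 ∧ e ∉ Str G τ

theorem noClique4 : NoClique Pool.Agent.Zk14.Bar.pat 4 := by
  intro n τ K hK
  obtain ⟨K', hK', hc⟩ := exists_subset_card_eq hK
  obtain ⟨e, he, h3, hne⟩ := Pool.Agent.Zk14.Bar.Str_tetraFree Pool.Agent.Zk14.Bar.pat_good' τ K' hc
  exact ⟨e, he.trans hK', h3, hne⟩

theorem noClique5 : NoClique pat5 5 := by
  intro n τ K hK
  obtain ⟨K', hK', hc⟩ := exists_subset_card_eq hK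
  by_contra hcon
  push Not at hcon
  obtain ⟨v, hv⟩ := card_pos.1 (show 0 < K'.card by omega)
  have h4 : (K'.erase v).card = 4 := by rw [card_erase_of_mem hv, hc]
  obtain ⟨a, b, c, d, hab, hac, had, hbc, hbd, hcd, hset⟩ := card_eq_four.1 h4
  have hmem : ∀ x ∈ ({a, b, c, d} : Finset (Fin n)), x ≠ v ∧ x ∈ K := by
    intro x hx
    rw [← hset, mem_erase] at hx
    exact ⟨hx.1, hK' hx.2⟩
  have key : ∀ x y z, x ≠ y → x ≠ z → y ≠ z → x ∈ K → y ∈ K → z ∈ K →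
      pat5 (τ x) (τ y) (τ z) = true := by
    intro x y z hxy hxz hyz hx hy hz
    have := hcon {x, y, z} (by
      intro w hw
      simp only [mem_insert, mem_singleton] at hw
      rcases hw with rfl | rfl | rfl
      · exact hx
      · exact hy
      · exact hz) (card_eq_three.2 ⟨x, y, z, hxy, hxz, hyz, rfl⟩)
    exact (mem_Str.1 this).2 x (by simp) y (by simp) z (by simp) hxy hxz hyz
  have ha := hmem a (by simp)
  have hb := hmem b (by simp)
  have hc' := hmem c (by simp)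
  have hd := hmem d (by simp)
  have hv' := hK' hv
  have h := pat5_good (τ a) (τ b) (τ c) (key _ _ _ hab hac hbc ha.2 hb.2 hc'.2) (τ d)
    (key _ _ _ hab had hbd ha.2 hb.2 hd.2) (key _ _ _ hac had hcd ha.2 hc'.2 hd.2)
    (key _ _ _ hbc hbd hcd hb.2 hc'.2 hd.2) (τ v)
    (key _ _ _ hab ha.1 hb.1 ha.2 hb.2 hv') (key _ _ _ hac ha.1 hc'.1 ha.2 hc'.2 hv')
    (key _ _ _ hbc hb.1 hc'.1 hb.2 hc'.2 hv') (key _ _ _ had ha.1 hd.1 ha.2 hd.2 hv')
    (key _ _ _ hbd hb.1 hd.1 hb.2 hd.2 hv')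
  have h2 := key _ _ _ hcd hc'.1 hd.1 hc'.2 hd.2 hv'
  rw [h] at h2
  exact absurd h2 (by decide)

end Pool.Agent.Zk14.BarM
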