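import Pool.Agent.Zk14.BarM.Join

/-!
# The barrier for all cliques
-/

set_option autoImplicit false
open Finset

namespace Pool.Agent.Zk14.BarM

open Pool.Agent.Zk14.Bar (Flag IsPSD pull square value TetraFree Str mem_Str pull_Str Str_congr
  Symm3 tot bi view Good triple_mem_Str Str_three evaluate big_nonneg six_card sos)

/-- `H` contains no clique on `m` vertices. -/
def CliqueFree {n : ℕ} (m : ℕ) (H : Finset (Finset (Fin n))) : Prop :=
  ∀ K : Finset (Fin n), K.card = m → ∃ e, e ⊆ K ∧ e.card = 3 ∧ e ∉ H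

/-- The barrier for all cliques. -/
theorem barrier_clique (m : ℕ) (hm : 4 ≤ m) (N : ℕ) (hN : 3 ≤ N) : ∃ ε : ℝ, 0 < ε ∧
    ∀ Q : (s m : ℕ) → Flag s m → Flag s m → ℝ, IsPSD Q → ∀ lam : ℝ,
      (∀ H : Finset (Finset (Fin N)), (∀ e ∈ H, e.card = 3) → CliqueFree m H →
        value Q H ≤ lam) → 1 - (2 / ((m : ℝ) - 1)) ^ 2 + ε ≤ lam := by
  rcases Nat.even_or_odd' m with ⟨c, hc | hc⟩
  · obtain ⟨b, rfl⟩ : ∃ b, c = 2 + b := ⟨c - 2, by omega⟩
    have Y := (sys4).join (μ := 2) b
    obtain ⟨ε, hε, h⟩ := Y.barrier (by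
      have : (0 : ℝ) ≤ b := Nat.cast_nonneg b
      linarith) (by norm_num) (by norm_num) N hN
    refine ⟨ε, hε, fun Q hQ lam hlam => ?_⟩
    have h1 := h Q hQ lam (fun τ => hlam _ (Str_three _ τ) (fun K hK => by
      obtain ⟨e, he, h3, hne⟩ := (noClique4.join (by norm_num) b) N τ K (by omega)
      exact ⟨e, he, h3, hne⟩))
    have h2 : (m : ℝ) - 1 = 3 + 2 * b := by
      rw [hc]
      push_cast
      ring
    rw [h2]
    calc 1 - (2 / (3 + 2 * (b : ℝ))) ^ 2 + ε = 1 - 4 / (3 + 2 * (b : ℝ)) ^ 2 + ε := by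
          rw [div_pow]
          norm_num
      _ ≤ lam := h1
  · obtain ⟨b, rfl⟩ : ∃ b, c = 2 + b := ⟨c - 2, by omega⟩
    have Y := (show Sys pat5 dg5 p5 q5 r5 s5 g5 h5 4 ((1 : ℕ) : ℝ) 12 by
      rw [Nat.cast_one]
      exact sys5).join (μ := 1) b
    obtain ⟨ε, hε, h⟩ := Y.barrier (by
      have : (0 : ℝ) ≤ b := Nat.cast_nonneg b
      linarith) (by norm_num) (by norm_num) N hN
    refine ⟨ε, hε, fun Q hQ lam hlam => ?_⟩
    have h1 := h Q hQ lam (fun τ => hlam _ (Str_three _ τ) (fun K hK => by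
      obtain ⟨e, he, h3, hne⟩ := (noClique5.join (by norm_num) b) N τ K (by omega)
      exact ⟨e, he, h3, hne⟩))
    have h2 : (m : ℝ) - 1 = 4 + 2 * b := by
      rw [hc]
      push_cast
      ring
    rw [h2]
    calc 1 - (2 / (4 + 2 * (b : ℝ))) ^ 2 + ε = 1 - 4 / (4 + 2 * (b : ℝ)) ^ 2 + ε := by
          rw [div_pow]
          norm_num
      _ ≤ lam := h1

/-! ### Soundness -/

/-- A certificate proves a bound for all 3-graphs without a clique on `m` vertices. -/
theorem sound_clique {m : ℕ} (hm : 3 ≤ m) {N : ℕ} (hN : 3 ≤ N)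
    {Q : (s m : ℕ) → Flag s m → Flag s m → ℝ} (hQ : IsPSD Q)
    {lam : ℝ} (h : ∀ H : Finset (Finset (Fin N)), (∀ e ∈ H, e.card = 3) → CliqueFree m H →
      value Q H ≤ lam) {n : ℕ} (H : Finset (Finset (Fin n))) (h3 : ∀ e ∈ H, e.card = 3)
    (hH : CliqueFree m H) : (6 * H.card : ℝ) ≤ lam * (n : ℝ) ^ 3 := by
  classical
  rcases Nat.eq_zero_or_pos n with hn | hn
  · subst hn
    have : H = ∅ := by
      rw [eq_empty_iff_forall_notMem]
      intro e he
      have h1 := h3 e he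
      have h2 := card_le_univ e
      rw [Fintype.card_fin] at h2
      omega
    rw [this]
    simp
  set G : Fin n → Fin n → Fin n → Bool := fun x y z =>
    decide (x ≠ y ∧ x ≠ z ∧ y ≠ z ∧ ({x, y, z} : Finset (Fin n)) ∈ H) with hG
  have hset1 : ∀ x y z : Fin n, ({x, y, z} : Finset (Fin n)) = {y, x, z} := by
    intro x y z
    ext w; simp only [mem_insert, mem_singleton]; tauto
  have hset2 : ∀ x y z : Fin n, ({x, y, z} : Finset (Fin n)) = {x, z, y} := by
    intro x y z
    ext w; simp only [mem_insert, mem_singleton]; tauto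
  have hS : Symm3 G := by
    constructor
    · intro x y z
      simp only [hG, decide_eq_decide]
      rw [hset1 x y z]
      constructor <;> rintro ⟨h1, h2, h4, h5⟩ <;> exact ⟨Ne.symm h1, h4, h2, h5⟩
    · intro x y z
      simp only [hG, decide_eq_decide]
      rw [hset2 x y z]
      constructor <;> rintro ⟨h1, h2, h4, h5⟩ <;> exact ⟨h2, h1, Ne.symm h4, h5⟩
  have hfree : ∀ τ : Fin N → Fin n, CliqueFree m (Str G τ) := by
    intro τ K hK
    by_contra hcon
    push Not at hcon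
    have hinj : Set.InjOn τ (K : Set (Fin N)) := by
      intro x hx y hy hxy
      by_contra hne
      have h4 : 0 < ((K.erase x).erase y).card := by
        have e1 := pred_card_le_card_erase (s := K) (a := x)
        have e2 := pred_card_le_card_erase (s := K.erase x) (a := y)
        omega
      obtain ⟨z, hz⟩ := card_pos.1 h4
      rw [mem_erase, mem_erase] at hz
      have h5 := hcon {x, y, z} (by
        intro w hw
        simp only [mem_insert, mem_singleton] at hw
        rcases hw with rfl | rfl | rfl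
        · exact hx
        · exact hy
        · exact hz.2.2) (card_eq_three.2 ⟨x, y, z, hne, Ne.symm hz.2.1, Ne.symm hz.1, rfl⟩)
      have h6 := (mem_Str.1 h5).2 x (by simp) y (by simp) z (by simp) hne (Ne.symm hz.2.1)
        (Ne.symm hz.1)
      simp only [hG, decide_eq_true_eq] at h6
      exact h6.1 hxy
    obtain ⟨e, he, hc, hne⟩ := hH (K.image τ) (by rw [card_image_of_injOn hinj, hK])
    obtain ⟨e', he', rfl⟩ := subset_image_iff.1 he
    have hinj' : Set.InjOn τ (e' : Set (Fin N)) := hinj.mono (by exact_mod_cast he')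
    rw [card_image_of_injOn hinj'] at hc
    have h5 := hcon e' (by exact_mod_cast he') hc
    obtain ⟨x, y, z, hxy, hxz, hyz, rfl⟩ := card_eq_three.1 hc
    have h6 := (mem_Str.1 h5).2 x (by simp) y (by simp) z (by simp) hxy hxz hyz
    simp only [hG, decide_eq_true_eq] at h6
    apply hne
    rw [image_insert, image_insert, image_singleton]
    exact h6.2.2.2
  obtain ⟨sl, hsl, heq⟩ := evaluate (G := G) hN hS (fun τ => h _ (Str_three G τ) (hfree τ))
  have h1 := heq (fun _ => 1)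
  have htot : tot (fun _ : Fin n => (1 : ℝ)) = n := by
    unfold tot
    simp
  have h2 : 0 ≤ ∑ s ∈ range (N + 1), ∑ m ∈ range (N + 1),
      if s + 2 * m ≤ N then tot (fun _ : Fin n => (1 : ℝ)) ^ (N - (s + 2 * m)) *
        sos G Q s m (fun _ => 1) else 0 :=
    sum_nonneg fun s _ => sum_nonneg fun m _ => big_nonneg G hQ (fun _ => zero_le_one) s m
  have h4 : 0 ≤ ∑ τ : Fin N → Fin n, (∏ i : Fin N, (fun _ : Fin n => (1 : ℝ)) (τ i)) * sl τ :=
    sum_nonneg fun τ _ => mul_nonneg (prod_nonneg fun _ _ => zero_le_one) (hsl τ)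
  have h5 : tot (fun _ : Fin n => (1 : ℝ)) ^ (N - 3) *
      Pool.Agent.Zk14.Bar.dens G (fun _ => 1) ≤
      lam * tot (fun _ : Fin n => (1 : ℝ)) ^ N := by linarith
  rw [htot] at h5
  have h6 : (6 * H.card : ℝ) ≤ Pool.Agent.Zk14.Bar.dens G (fun _ => 1) := by
    refine (six_card h3).trans (le_of_eq ?_)
    unfold Pool.Agent.Zk14.Bar.dens
    refine sum_congr rfl fun x _ => sum_congr rfl fun y _ => sum_congr rfl fun z _ => ?_
    rw [one_mul, one_mul, one_mul]
  have hn' : (0 : ℝ) < (n : ℝ) ^ (N - 3) := by positivity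
  have h7 : (n : ℝ) ^ N = (n : ℝ) ^ (N - 3) * (n : ℝ) ^ 3 := by
    rw [← pow_add]
    congr 1
    omega
  rw [h7] at h5
  have h8 : (n : ℝ) ^ (N - 3) * (6 * H.card : ℝ) ≤ (n : ℝ) ^ (N - 3) * (lam * (n : ℝ) ^ 3) := by
    calc (n : ℝ) ^ (N - 3) * (6 * H.card : ℝ) ≤
        (n : ℝ) ^ (N - 3) * Pool.Agent.Zk14.Bar.dens G (fun _ => 1) :=
          mul_le_mul_of_nonneg_left h6 hn'.le
      _ ≤ lam * ((n : ℝ) ^ (N - 3) * (n : ℝ) ^ 3) := h5
      _ = _ := by ring
  exact le_of_mul_le_mul_left h8 hn'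

end Pool.Agent.Zk14.BarM
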