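import Pool.Agent.Zk14.BarM.Base

/-!
# Joining a system with further classes

We add `b` classes of mass two; the triples inside such a class are non-edges, and all triples
which meet two different parts are edges.
-/

set_option autoImplicit false
open Finset

namespace Pool.Agent.Zk14.BarM

open Pool.Agent.Zk14.Bar (Flag IsPSD pull square value TetraFree Str mem_Str pull_Str Str_congr
  Symm3 tot bi view Good triple_mem_Str)

section tc

variable {B : Type} [Fintype B]

/-- The weight of the non-edges. -/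
noncomputable def tc (G : B → B → B → Bool) (W : B → ℝ) : ℝ :=
  ∑ x, ∑ y, ∑ z, W x * W y * W z * bi (! G x y z)

theorem dens_add_tc (G : B → B → B → Bool) (W : B → ℝ) :
    Pool.Agent.Zk14.Bar.dens G W + tc G W = tot W ^ 3 := by
  have h : tot W ^ 3 = ∑ x, ∑ y, ∑ z, W x * W y * W z := by
    unfold tot
    rw [pow_succ, pow_two, sum_mul_sum, sum_mul]
    refine sum_congr rfl fun x _ => ?_
    rw [sum_mul]
    refine sum_congr rfl fun y _ => ?_
    rw [mul_sum]
  rw [h]
  unfold Pool.Agent.Zk14.Bar.dens tc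
  simp only [← sum_add_distrib]
  refine sum_congr rfl fun x _ => sum_congr rfl fun y _ => sum_congr rfl fun z _ => ?_
  unfold bi
  cases G x y z <;> simp

end tc

/-! ### The joined pattern -/

section join

variable {B : Type} {b : ℕ}

/-- The joined pattern. -/
def jG (G : B → B → B → Bool) (b : ℕ) : (B ⊕ (Fin b × Bool)) → (B ⊕ (Fin b × Bool)) →
    (B ⊕ (Fin b × Bool)) → Bool
  | Sum.inl x, Sum.inl y, Sum.inl z => G x y z
  | Sum.inr p, Sum.inr q, Sum.inr r => ! (p.1 == q.1 && p.1 == r.1)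
  | _, _, _ => true

/-- The joined degrees. -/
def jd (dg : B → ℕ) (b : ℕ) : B ⊕ (Fin b × Bool) → ℕ
  | Sum.inl x => dg x
  | Sum.inr p => cond p.2 1 0

/-- The joined weights: `w` is the weight of the tiny blocks of the new classes. -/
def ja (a : B → ℕ) (b w : ℕ) : B ⊕ (Fin b × Bool) → ℕ
  | Sum.inl x => a x
  | Sum.inr p => cond p.2 w 2

/-- The joined comparisons. -/
def jb (β : B → B) (b : ℕ) : B ⊕ (Fin b × Bool) → B ⊕ (Fin b × Bool) := Sum.map β id

theorem jG_symm {G : B → B → B → Bool} (hG : Symm3 G) (b : ℕ) : Symm3 (jG G b) := by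
  have hb1 : ∀ p q r : Fin b, (p == q && p == r) = (q == p && q == r) := by
    intro p q r
    by_cases h1 : p = q
    · subst h1
      rfl
    · have h2 : (p == q) = false := beq_eq_false_iff_ne.2 h1
      have h3 : (q == p) = false := beq_eq_false_iff_ne.2 (Ne.symm h1)
      rw [h2, h3]
      rfl
  have hb2 : ∀ p q r : Fin b, (p == q && p == r) = (p == r && p == q) := by
    intro p q r
    rw [Bool.and_comm]
  constructor
  · rintro (x | p) (y | q) (z | r)
    · exact hG.1 x y z
    all_goals first | rfl | skip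
    show (! (p.1 == q.1 && p.1 == r.1)) = ! (q.1 == p.1 && q.1 == r.1)
    rw [hb1]
  · rintro (x | p) (y | q) (z | r)
    · exact hG.2 x y z
    all_goals first | rfl | skip
    show (! (p.1 == q.1 && p.1 == r.1)) = ! (p.1 == r.1 && p.1 == q.1)
    rw [hb2]

theorem jOk {G : B → B → B → Bool} {dg aP : B → ℕ} {β : B → B} {w : ℕ} {x : B}
    (h : Ok G dg aP β x) : Ok (jG G b) (jd dg b) (ja aP b w) (jb β b) (Sum.inl x) := by
  rintro (u | p) hu hd (y | q) hy
  · exact h u hu hd y hy
  all_goals rfl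

theorem jOk' {G : B → B → B → Bool} {dg aP : B → ℕ} {β : B → B} {w : ℕ} (p : Fin b × Bool) :
    Ok (jG G b) (jd dg b) (ja aP b w) (jb β b) (Sum.inr p) := by
  rintro (u | q) hu hd (y | r) hy
  all_goals rfl

theorem jComp {dg aP a : B → ℕ} {β : B → B} (w : ℕ) (h : Compare dg aP a β) :
    Compare (jd dg b) (ja aP b w) (ja a b w) (jb β b) := by
  refine ⟨?_, ?_, ?_, ?_⟩
  · rintro (x | p)
    · show Sum.inl (β (β x)) = Sum.inl x
      rw [h.invo]
    · rfl
  · rintro (x | p)
    · exact h.supp x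
    · rfl
  · rintro (x | p)
    · exact h.deg x
    · rfl
  · rintro (x | p) hx
    · show Sum.inl (β x) = Sum.inl x
      rw [h.fix x hx]
    · rfl

theorem j_tot [Fintype B] (dg a : B → ℕ) (b w : ℕ) (u : ℝ) :
    tot (wtg (jd dg b) (ja a b w) u) = tot (wtg dg a u) + b * (2 + w * u) := by
  unfold tot
  rw [Fintype.sum_sum_type, Fintype.sum_prod_type]
  congr 1
  simp only [wtg, jd, ja, Fintype.sum_bool, cond_true, cond_false, pow_one, pow_zero, sum_const,
    card_univ, Fintype.card_fin, nsmul_eq_mul]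
  push_cast
  ring

theorem j_tc [Fintype B] (G : B → B → B → Bool) (dg a : B → ℕ) (b w : ℕ) (u : ℝ) :
    tc (jG G b) (wtg (jd dg b) (ja a b w) u) = tc G (wtg dg a u) + b * (2 + w * u) ^ 3 := by
  unfold tc
  simp only [Fintype.sum_sum_type]
  have h0 : bi (! true) = 0 := rfl
  simp only [jG, h0, mul_zero, sum_const_zero, add_zero, zero_add]
  congr 1
  simp only [Fintype.sum_prod_type, Fintype.sum_bool, wtg, jd, ja, cond_true, cond_false, pow_one,
    pow_zero, Bool.not_not]
  have h1 : ∀ p : Fin b, (∑ q : Fin b, (∑ r : Fin b, bi (p == q && p == r))) = 1 := by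
    intro p
    rw [sum_eq_single p, sum_eq_single p]
    · simp [bi]
    · intro r _ hr
      have : (p == r) = false := by simp [Ne.symm hr]
      simp [this, bi]
    · intro h
      exact absurd (mem_univ _) h
    · intro q _ hq
      have : (p == q) = false := by simp [Ne.symm hq]
      simp [this, bi]
    · intro h
      exact absurd (mem_univ _) h
  have h2 : ∀ p : Fin b, (∑ q : Fin b, (∑ r : Fin b, bi (p == q && p == r) *
      (2 + (w : ℝ) * u) ^ 3)) = (2 + (w : ℝ) * u) ^ 3 := by
    intro p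
    simp only [← sum_mul]
    rw [h1, one_mul]
  calc _ = ∑ p : Fin b, (∑ q : Fin b, (∑ r : Fin b, bi (p == q && p == r) *
      (2 + (w : ℝ) * u) ^ 3)) := by
        refine sum_congr rfl fun p _ => ?_
        rw [← sum_add_distrib]
        refine sum_congr rfl fun q _ => ?_
        simp only [← sum_add_distrib]
        refine sum_congr rfl fun r _ => ?_
        push_cast
        ring
    _ = _ := by
        rw [sum_congr rfl fun p _ => h2 p, sum_const, card_univ, Fintype.card_fin, nsmul_eq_mul]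

/-- The joined system. -/
theorem Sys.join [Fintype B] {G : B → B → B → Bool} {dg aP a1 a2 a3 : B → ℕ} {b1 b2 : B → B}
    {S κ : ℝ} {μ : ℕ} (Y : Sys G dg aP a1 a2 a3 b1 b2 S (μ : ℝ) κ) (b : ℕ) :
    Sys (jG G b) (jd dg b) (ja aP b (2 * μ)) (ja a1 b (2 * μ)) (ja a2 b (2 * μ))
      (ja a3 b (4 * μ)) (jb b1 b) (jb b2 b) (S + 2 * b) (μ : ℝ) κ := by
  have hdens : ∀ (W : B → ℝ) (D : ℝ), Pool.Agent.Zk14.Bar.dens G W = D →
      tc G W = tot W ^ 3 - D := by
    intro W D h
    rw [← h, ← dens_add_tc G W]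
    ring
  have hdens' : ∀ W : B ⊕ (Fin b × Bool) → ℝ, Pool.Agent.Zk14.Bar.dens (jG G b) W =
      tot W ^ 3 - tc (jG G b) W := by
    intro W
    rw [← dens_add_tc (jG G b) W]
    ring
  refine ⟨jG_symm Y.symm b, ?_, jComp _ Y.comp1, jComp _ Y.comp2, ?_, ?_, ?_, ?_, ?_,
    ?_, ?_, ?_, ?_, ?_, ?_, ?_, ?_⟩
  · rintro (x | ⟨p, c⟩)
    · exact Y.dg_le x
    · cases c
      · exact Nat.zero_le _
      · exact le_rfl
  · rintro (x | p) hx
    · exact jOk (Y.large1 x hx)
    · exact jOk' p
  · rintro (x | p) hx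
    · exact jOk (Y.large2 x hx)
    · exact jOk' p
  · rintro (x | ⟨p, c⟩) hx
    · exact Y.a3_large x hx
    · cases c
      · rfl
      · exact absurd hx (by show ¬ (1 : ℕ) = 0; norm_num)
  · rintro (x | ⟨p, c⟩)
    · exact Y.a3_ge x
    · cases c
      · exact le_rfl
      · show 2 * μ ≤ 4 * μ
        omega
  · rintro (x | p) hx h
    · have h1 := Y.tiny x hx (fun h' => h ⟨jOk h'.1, h'.2⟩)
      exact ⟨jOk h1.1, h1.2⟩
    · exact ⟨jOk' p, le_rfl⟩
  · intro t
    rw [j_tot, Y.totP]
    push_cast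
    ring
  · intro t
    rw [j_tot, Y.tot1]
    push_cast
    ring
  · intro t
    rw [j_tot, Y.tot2]
    push_cast
    ring
  · intro t
    rw [j_tot, Y.tot3]
    push_cast
    ring
  · intro t
    rw [hdens', j_tc, j_tot, hdens _ _ (Y.densP t), Y.totP]
    push_cast
    ring
  · intro t
    rw [hdens', j_tc, j_tot, hdens _ _ (Y.dens1 t), Y.tot1]
    push_cast
    ring
  · intro t
    rw [hdens', j_tc, j_tot, hdens _ _ (Y.dens2 t), Y.tot2]
    push_cast
    ring
  · intro t
    rw [hdens', j_tc, j_tot, hdens _ _ (Y.dens3 t), Y.tot3]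
    push_cast
    ring

/-- Cliques in the joined pattern. -/
theorem NoClique.join {G : B → B → B → Bool} {k : ℕ} (hk : 1 ≤ k) (h : NoClique G k) (b : ℕ) :
    NoClique (jG G b) (k + 2 * b) := by
  classical
  intro n τ K hK
  set K₀ : Finset (Fin n) := K.filter fun i => (τ i).isLeft = true with hK₀
  by_cases h0 : k ≤ K₀.card
  · obtain ⟨i₀, hi₀⟩ := card_pos.1 (show 0 < K₀.card by omega)
    have hl : ∀ i ∈ K₀, ∃ x, τ i = Sum.inl x := by
      intro i hi
      rw [hK₀, mem_filter] at hi
      cases hτ : τ i with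
      | inl x => exact ⟨x, rfl⟩
      | inr p => rw [hτ] at hi; simp at hi
    obtain ⟨x₀, hx₀⟩ := hl i₀ hi₀
    obtain ⟨e, he, h3, hne⟩ := h n (fun i => Sum.elim id (fun _ => x₀) (τ i)) K₀ h0
    refine ⟨e, he.trans (filter_subset _ _), h3, ?_⟩
    intro hmem
    apply hne
    rw [mem_Str] at hmem ⊢
    refine ⟨h3, fun i hi j hj l hl' hij hil hjl => ?_⟩
    have h4 := hmem.2 i hi j hj l hl' hij hil hjl
    obtain ⟨x, hx⟩ := hl i (he hi)
    obtain ⟨y, hy⟩ := hl j (he hj)
    obtain ⟨z, hz⟩ := hl l (he hl')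
    rw [hx, hy, hz] at h4 ⊢
    exact h4
  · push Not at h0
    set K₁ : Finset (Fin n) := K.filter fun i => ¬ (τ i).isLeft = true with hK₁
    have hsum : K₀.card + K₁.card = K.card := card_filter_add_card_filter_not _
    have hK₁c : 2 * b < K₁.card := by omega
    rcases Nat.eq_zero_or_pos b with hb | hb
    · subst hb
      obtain ⟨i, hi⟩ := card_pos.1 (show 0 < K₁.card by omega)
      rw [hK₁, mem_filter] at hi
      cases hτ : τ i with
      | inl x => rw [hτ] at hi; simp at hi
      | inr p => exact p.1.elim0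
    let f : Fin n → Fin b := fun i => Sum.elim (fun _ => (⟨0, hb⟩ : Fin b)) (fun p => p.1) (τ i)
    obtain ⟨c, -, hc⟩ := exists_lt_card_fiber_of_mul_lt_card_of_maps_to
      (s := K₁) (t := (univ : Finset (Fin b))) (f := f) (n := 2) (fun i _ => mem_univ _)
      (by rw [card_univ, Fintype.card_fin]; omega)
    obtain ⟨e, he, h3⟩ := exists_subset_card_eq (show 3 ≤ (K₁.filter fun i => f i = c).card from hc)
    refine ⟨e, fun i hi => ?_, h3, ?_⟩
    · have h4 := (mem_filter.1 (he hi)).1
      rw [hK₁, mem_filter] at h4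
      exact h4.1
    · intro hmem
      obtain ⟨i, j, l, hij, hil, hjl, rfl⟩ := card_eq_three.1 h3
      have h4 := (mem_Str.1 hmem).2 i (by simp) j (by simp) l (by simp) hij hil hjl
      have hcl : ∀ x ∈ ({i, j, l} : Finset (Fin n)), ∃ p : Fin b × Bool, τ x = Sum.inr p ∧
          p.1 = c := by
        intro x hx
        have h5 := mem_filter.1 (he hx)
        have h6 := h5.1
        rw [hK₁, mem_filter] at h6
        cases hτ : τ x with
        | inl y => rw [hτ] at h6; simp at h6
        | inr p =>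
          refine ⟨p, rfl, ?_⟩
          have h7 := h5.2
          simp only [f, hτ, Sum.elim_inr] at h7
          exact h7
      obtain ⟨p, hp, hp'⟩ := hcl i (by simp)
      obtain ⟨q, hq, hq'⟩ := hcl j (by simp)
      obtain ⟨r, hr, hr'⟩ := hcl l (by simp)
      rw [hp, hq, hr] at h4
      have h8 : jG G b (Sum.inr p) (Sum.inr q) (Sum.inr r) = ! (p.1 == q.1 && p.1 == r.1) := rfl
      rw [h8, hp', hq', hr'] at h4
      simp at h4

end join

end Pool.Agent.Zk14.BarM
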