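import Pool.Agent.Zk14.Bar.Main

/-!
# A general criterion for barriers to flag certificates

A *system* is a pattern with large and tiny blocks, with weights of the tiny blocks for a perturbed
pattern (`aP`) and three extremal patterns (`a1`, `a2`, `a3`), such that the flag densities of the
perturbed pattern agree to first order with those of the extremal ones at all roots with at most
one tiny block. If the perturbed pattern has a density deficit `κ t ^ 3`, then certificates which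
are valid for all blow-ups of the pattern do not reach the density of the extremal patterns.
-/

set_option autoImplicit false
open Finset

namespace Pool.Agent.Zk14.BarM

open Pool.Agent.Zk14.Bar (Flag IsPSD pull square value TetraFree Str mem_Str pull_Str Str_congr
  Symm3 tot bi dens view qf sos evaluate big_nonneg sos_nonneg IsForm curve node core term_le
  slack_le qf_isForm Str_congr_one sum_eq_one node_pos node_ge node_le curve_sub)

variable {B : Type} [Fintype B] [DecidableEq B]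

/-- The weight of a block. -/
noncomputable def wtg (dg a : B → ℕ) (u : ℝ) (b : B) : ℝ := (a b : ℝ) * u ^ dg b

/-- The block `x` does not distinguish the tiny blocks `b` and `β b`. -/
def Ok (G : B → B → B → Bool) (dg aP : B → ℕ) (β : B → B) (x : B) : Prop :=
  ∀ b, aP b ≠ 0 → dg b = 1 → ∀ y, dg y = 0 → G b x y = G (β b) x y

/-- The properties of the comparison maps. -/
structure Compare (dg aP a : B → ℕ) (β : B → B) : Prop where
  invo : ∀ b, β (β b) = b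
  supp : ∀ b, a (β b) = aP b
  deg : ∀ b, dg (β b) = dg b
  fix : ∀ b, dg b = 0 → β b = b

/-- A system of blocks. -/
structure Sys (G : B → B → B → Bool) (dg aP a1 a2 a3 : B → ℕ) (b1 b2 : B → B)
    (S μ κ : ℝ) : Prop where
  symm : Symm3 G
  dg_le : ∀ x, dg x ≤ 1
  comp1 : Compare dg aP a1 b1
  comp2 : Compare dg aP a2 b2
  large1 : ∀ x, dg x = 0 → Ok G dg aP b1 x
  large2 : ∀ x, dg x = 0 → Ok G dg aP b2 x
  a3_large : ∀ x, dg x = 0 → a3 x = aP x
  a3_ge : ∀ x, aP x ≤ a3 x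
  tiny : ∀ x, aP x ≠ 0 → ¬ (Ok G dg aP b1 x ∧ aP x ≤ a1 x) → Ok G dg aP b2 x ∧ aP x ≤ a2 x
  totP : ∀ t, tot (wtg dg aP t) = S * (1 + μ * t)
  tot1 : ∀ t, tot (wtg dg a1 t) = S * (1 + μ * t)
  tot2 : ∀ t, tot (wtg dg a2 t) = S * (1 + μ * t)
  tot3 : ∀ t, tot (wtg dg a3 (t / 2)) = S * (1 + μ * t)
  densP : ∀ t, dens G (wtg dg aP t) = (S ^ 3 - 4 * S) * (1 + μ * t) ^ 3 - κ * t ^ 3
  dens1 : ∀ t, dens G (wtg dg a1 t) = (S ^ 3 - 4 * S) * (1 + μ * t) ^ 3
  dens2 : ∀ t, dens G (wtg dg a2 t) = (S ^ 3 - 4 * S) * (1 + μ * t) ^ 3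
  dens3 : ∀ t, dens G (wtg dg a3 (t / 2)) = (S ^ 3 - 4 * S) * (1 + μ * t) ^ 3

/-! ### Weights and views -/

omit [Fintype B] [DecidableEq B] in
theorem wtg_nonneg (dg a : B → ℕ) {u : ℝ} (hu : 0 ≤ u) (b : B) : 0 ≤ wtg dg a u b := by
  unfold wtg
  positivity

/-- The coefficient of `u ^ j` in the view. -/
noncomputable def coef (G : B → B → B → Bool) (dg a : B → ℕ) {s : ℕ} (m : ℕ) (φ : Fin s → B)
    (j : ℕ) : Flag s m → ℝ :=
  fun F => ∑ ψ : Fin m → B, if ∑ i, dg (ψ i) = j then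
    (∏ i, (a (ψ i) : ℝ)) * (if Str G (Sum.elim φ ψ) = F then 1 else 0) else 0

omit [DecidableEq B] in
theorem view_wtg {G : B → B → B → Bool} {dg : B → ℕ} (hdg : ∀ x, dg x ≤ 1) (a : B → ℕ) {s : ℕ}
    (m : ℕ) (φ : Fin s → B) (c t : ℝ) :
    view G m φ (wtg dg a (c * t)) =
      curve (fun j : Fin (m + 1) => c ^ (j : ℕ) • coef G dg a m φ j) t := by
  funext F
  unfold view curve coef wtg
  simp only [Finset.sum_apply, Pi.smul_apply, smul_eq_mul, mul_sum]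
  rw [sum_comm]
  refine sum_congr rfl fun ψ _ => ?_
  have hle : ∑ i, dg (ψ i) ≤ m := by
    calc ∑ i, dg (ψ i) ≤ ∑ i : Fin m, 1 := sum_le_sum fun i _ => hdg _
      _ = m := by simp
  rw [sum_eq_single (⟨∑ i, dg (ψ i), by omega⟩ : Fin (m + 1))]
  · rw [if_pos rfl, prod_mul_distrib, prod_pow_eq_pow_sum, mul_pow]
    ring
  · intro j _ hj
    rw [if_neg]
    · ring
    · intro h
      exact hj (Fin.ext h.symm)
  · intro h
    exact absurd (mem_univ _) h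

omit [Fintype B] [DecidableEq B] in
theorem prod_wtg (dg a : B → ℕ) {s : ℕ} (φ : Fin s → B) (u : ℝ) :
    ∏ i, wtg dg a u (φ i) = (∏ i, (a (φ i) : ℝ)) * u ^ ∑ i, dg (φ i) := by
  unfold wtg
  rw [prod_mul_distrib, prod_pow_eq_pow_sum]

omit [DecidableEq B] in
theorem coef_zero {G : B → B → B → Bool} {dg a a' : B → ℕ} (h : ∀ b, dg b = 0 → a b = a' b)
    {s : ℕ} (m : ℕ) (φ : Fin s → B) : coef G dg a m φ 0 = coef G dg a' m φ 0 := by
  funext F
  unfold coef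
  refine sum_congr rfl fun ψ _ => ?_
  by_cases h0 : ∑ i, dg (ψ i) = 0
  · rw [if_pos h0, if_pos h0]
    rw [sum_eq_zero_iff] at h0
    congr 1
    exact prod_congr rfl fun i _ => by rw [h _ (h0 i (mem_univ i))]
  · rw [if_neg h0, if_neg h0]

omit [DecidableEq B] in
theorem coef_one {G : B → B → B → Bool} (hG : Symm3 G) {dg aP a : B → ℕ} {β : B → B}
    (hβ : Compare dg aP a β) {s : ℕ} (m : ℕ) (φ : Fin s → B) (hφ : ∀ i, Ok G dg aP β (φ i))
    (hk : ∑ i, dg (φ i) ≤ 1) (hlarge : ∀ x, dg x = 0 → Ok G dg aP β x) :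
    coef G dg aP m φ 1 = coef G dg a m φ 1 := by
  funext F
  unfold coef
  let e : (Fin m → B) ≃ (Fin m → B) :=
    Equiv.arrowCongr (Equiv.refl (Fin m)) (Function.Involutive.toPerm β hβ.invo)
  have he : ∀ ψ i, e ψ i = β (ψ i) := fun ψ i => rfl
  refine Fintype.sum_equiv e _ _ fun ψ => ?_
  simp only [he, hβ.deg, hβ.supp]
  by_cases h1 : ∑ i, dg (ψ i) = 1
  · rw [if_pos h1, if_pos h1]
    by_cases h2 : ∏ i, (aP (ψ i) : ℝ) = 0
    · rw [h2, zero_mul, zero_mul]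
    · congr 1
      obtain ⟨p, hp, hp0⟩ := sum_eq_one h1
      have hap : aP (ψ p) ≠ 0 := by
        intro h0
        exact h2 (prod_eq_zero (mem_univ p) (by rw [h0]; norm_num))
      have hS : Str G (Sum.elim φ ψ) = Str G (Sum.elim φ (e ψ)) := by
        refine Str_congr_one hG (Sum.inr p) ?_ ?_
        · rintro (i | i) hi
          · rfl
          · have hne : i ≠ p := fun h => hi (by rw [h])
            simp only [Sum.elim_inr, he]
            exact (hβ.fix _ (hp0 i hne)).symm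
        · have hall : ∀ j : Fin s ⊕ Fin m, j ≠ Sum.inr p → Ok G dg aP β (Sum.elim φ ψ j) := by
            rintro (i | i) hi
            · exact hφ i
            · exact hlarge _ (hp0 i (fun h => hi (by rw [h])))
          have hpair : ∀ j k : Fin s ⊕ Fin m, j ≠ Sum.inr p → k ≠ Sum.inr p → j ≠ k →
              dg (Sum.elim φ ψ j) = 0 ∨ dg (Sum.elim φ ψ k) = 0 := by
            rintro (j | j) (k | k) hj hk' hjk
            · by_contra hcon
              push Not at hcon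
              have hjk' : j ≠ k := fun h => hjk (by rw [h])
              have h3 := add_sum_erase univ (fun i => dg (φ i)) (mem_univ j)
              have h4 : dg (φ k) ≤ ∑ i ∈ univ.erase j, dg (φ i) :=
                single_le_sum (f := fun i => dg (φ i)) (fun i _ => Nat.zero_le _)
                  (mem_erase.2 ⟨Ne.symm hjk', mem_univ k⟩)
              simp only [Sum.elim_inl] at hcon
              omega
            · exact Or.inr (hp0 k (fun h => hk' (by rw [h])))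
            · exact Or.inl (hp0 j (fun h => hj (by rw [h])))
            · exact Or.inl (hp0 j (fun h => hj (by rw [h])))
          intro j k hj hk' hjk
          show G (ψ p) (Sum.elim φ ψ j) (Sum.elim φ ψ k) =
            G (β (ψ p)) (Sum.elim φ ψ j) (Sum.elim φ ψ k)
          rcases hpair j k hj hk' hjk with h0 | h0
          · rw [hG.2, hall k hk' (ψ p) hap hp _ h0, hG.2]
          · exact hall j hj (ψ p) hap hp _ h0
      rw [hS]
  · rw [if_neg h1, if_neg h1]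

/-! ### The abstract estimate -/

theorem key_gen {N m k j₀ : ℕ} {K Bd : ℝ} (hK0 : 0 ≤ K) (hBd : 0 ≤ Bd) {E : Type}
    [AddCommGroup E] [Module ℝ E] {q : E → ℝ} (hq : IsForm q)
    (hK : ∀ (x : Fin (m + 1) → E) (j₀ : ℕ) (C : ℝ),
      (∀ j : Fin (m + 1), (j : ℕ) < j₀ → x j = 0) → (∀ i, q (curve x (node m i)) ≤ C) →
      ∀ t, 0 ≤ t → t ≤ 1 → q (curve x t) ≤ K * C * t ^ (2 * j₀))
    (xP xE : Fin (m + 1) → E) (hx : ∀ j : Fin (m + 1), (j : ℕ) < j₀ → xP j = xE j)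
    {δ : ℝ} (hδ2 : δ ≤ 2) (hm : m ≤ N) (hk : k ≤ N) (hkj : 4 ≤ k + 2 * j₀)
    (hP : ∀ t, 0 < t → t ≤ 1 → t ^ k * q (curve xP t) ≤ 2 * Bd)
    (hE : ∀ t, 0 < t → t ≤ 1 → t ^ k * q (curve xE t) ≤ 2 ^ N * (δ * Bd))
    {t : ℝ} (ht0 : 0 < t) (ht1 : t ≤ 1) :
    t ^ k * q (curve xP t) ≤
      2 ^ (N + 1) * Bd * δ + 2 * K * (8 * Bd * (2 * (N + 1)) ^ N) * t ^ 4 := by
  have hN0 : (0 : ℝ) < N + 1 := by positivity
  have hN2 : (1 : ℝ) ≤ N + 1 := by
    have : (0 : ℝ) ≤ N := Nat.cast_nonneg N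
    linarith
  have hnode : ∀ i, 1 / ((N : ℝ) + 1) ≤ node m i := by
    intro i
    refine le_trans ?_ (node_ge m i)
    apply one_div_le_one_div_of_le (by positivity)
    have : (m : ℝ) ≤ N := by exact_mod_cast hm
    linarith
  have hlow : ∀ (u X Y : ℝ), 1 / ((N : ℝ) + 1) ≤ u → 0 ≤ X → u ^ k * X ≤ Y →
      X ≤ ((N : ℝ) + 1) ^ N * Y := by
    intro u X Y hu hX h
    have h1 : (1 / ((N : ℝ) + 1)) ^ k ≤ u ^ k := pow_le_pow_left₀ (by positivity) hu k
    have h2 : (1 / ((N : ℝ) + 1)) ^ N ≤ (1 / ((N : ℝ) + 1)) ^ k :=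
      pow_le_pow_of_le_one (by positivity) (by rw [div_le_one hN0]; exact hN2) hk
    have h3 : (1 / ((N : ℝ) + 1)) ^ N * X ≤ Y :=
      (mul_le_mul_of_nonneg_right (h2.trans h1) hX).trans h
    have h4 : ((N : ℝ) + 1) ^ N * ((1 / ((N : ℝ) + 1)) ^ N * X) = X := by
      rw [← mul_assoc, ← mul_pow, mul_one_div_cancel hN0.ne', one_pow, one_mul]
    calc X = ((N : ℝ) + 1) ^ N * ((1 / ((N : ℝ) + 1)) ^ N * X) := h4.symm
      _ ≤ _ := mul_le_mul_of_nonneg_left h3 (by positivity)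
  have h2N : (1 : ℝ) ≤ 2 ^ N := one_le_pow₀ (by norm_num)
  have hδB : δ * Bd ≤ 2 * Bd := mul_le_mul_of_nonneg_right hδ2 hBd
  have hpw : (2 * ((N : ℝ) + 1)) ^ N = 2 ^ N * ((N : ℝ) + 1) ^ N := mul_pow _ _ _
  have hnodes : ∀ i, q (curve (fun j => xP j - xE j) (node m i)) ≤
      8 * Bd * (2 * ((N : ℝ) + 1)) ^ N := by
    intro i
    rw [curve_sub]
    have hp := node_pos m i
    have hl := node_le m i
    have e1 := hlow (node m i) _ _ (hnode i) (hq.nonneg _) (hP _ hp hl)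
    have e2 := hlow (node m i) _ _ (hnode i) (hq.nonneg _) (hE _ hp hl)
    have e3 := hq.sub (curve xP (node m i)) (curve xE (node m i))
    have e4 : ((N : ℝ) + 1) ^ N * (2 * Bd) ≤ 2 ^ N * ((N : ℝ) + 1) ^ N * (2 * Bd) := by
      have h5 : 0 ≤ ((N : ℝ) + 1) ^ N * (2 * Bd) := by positivity
      nlinarith
    have e5 : ((N : ℝ) + 1) ^ N * (2 ^ N * (δ * Bd)) ≤ 2 ^ N * ((N : ℝ) + 1) ^ N * (2 * Bd) := by
      calc ((N : ℝ) + 1) ^ N * (2 ^ N * (δ * Bd)) = 2 ^ N * ((N : ℝ) + 1) ^ N * (δ * Bd) := by ring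
        _ ≤ _ := mul_le_mul_of_nonneg_left hδB (by positivity)
    rw [hpw]
    calc q (curve xP (node m i) - curve xE (node m i))
        ≤ 2 * q (curve xP (node m i)) + 2 * q (curve xE (node m i)) := e3
      _ ≤ 2 * (2 ^ N * ((N : ℝ) + 1) ^ N * (2 * Bd)) +
          2 * (2 ^ N * ((N : ℝ) + 1) ^ N * (2 * Bd)) := by linarith
      _ = _ := by ring
  have hD := hK (fun j => xP j - xE j) j₀ _ (fun j hj => sub_eq_zero.2 (hx j hj)) hnodes t
    ht0.le ht1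
  have hsplit : q (curve xP t) ≤
      2 * q (curve xE t) + 2 * q (curve (fun j => xP j - xE j) t) := by
    have := hq.add (curve xE t) (curve (fun j => xP j - xE j) t)
    rw [curve_sub, add_sub_cancel] at this
    rwa [curve_sub]
  have htk : 0 < t ^ k := by positivity
  have hfirst : t ^ k * q (curve xE t) ≤ 2 ^ N * (δ * Bd) := hE t ht0 ht1
  have hsecond : t ^ k * q (curve (fun j => xP j - xE j) t) ≤
      K * (8 * Bd * (2 * ((N : ℝ) + 1)) ^ N) * t ^ 4 := by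
    have h1 : t ^ k * t ^ (2 * j₀) ≤ t ^ 4 := by
      rw [← pow_add]
      exact pow_le_pow_of_le_one ht0.le ht1 hkj
    calc t ^ k * q (curve (fun j => xP j - xE j) t)
        ≤ t ^ k * (K * (8 * Bd * (2 * ((N : ℝ) + 1)) ^ N) * t ^ (2 * j₀)) :=
          mul_le_mul_of_nonneg_left hD htk.le
      _ = K * (8 * Bd * (2 * ((N : ℝ) + 1)) ^ N) * (t ^ k * t ^ (2 * j₀)) := by ring
      _ ≤ _ := mul_le_mul_of_nonneg_left h1 (by positivity)
  calc t ^ k * q (curve xP t)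
      ≤ t ^ k * (2 * q (curve xE t) + 2 * q (curve (fun j => xP j - xE j) t)) :=
        mul_le_mul_of_nonneg_left hsplit htk.le
    _ = 2 * (t ^ k * q (curve xE t)) + 2 * (t ^ k * q (curve (fun j => xP j - xE j) t)) := by
        ring
    _ ≤ 2 * (2 ^ N * (δ * Bd)) +
        2 * (K * (8 * Bd * (2 * ((N : ℝ) + 1)) ^ N) * t ^ 4) := by linarith
    _ = _ := by ring

theorem isForm_scale {E : Type} [AddCommGroup E] [Module ℝ E] {q : E → ℝ} (hq : IsForm q)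
    {A : ℝ} (hA : 0 ≤ A) : IsForm (fun x => A * q x) := by
  refine ⟨fun x => mul_nonneg hA (hq.nonneg x), fun c x => ?_, fun x y => ?_⟩
  · show A * q (c • x) = c ^ 2 * (A * q x)
    rw [hq.smul]
    ring
  · show A * q (x + y) ≤ 2 * (A * q x) + 2 * (A * q y)
    have := mul_le_mul_of_nonneg_left (hq.add x y) hA
    linarith

/-! ### Certificates which are valid for the blow-ups -/

/-- All we need about a certificate. -/
structure Cert (G : B → B → B → Bool) (N : ℕ) (Q : (s m : ℕ) → Flag s m → Flag s m → ℝ) (lam : ℝ)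
    (sl : (Fin N → B) → ℝ) : Prop where
  hN : 3 ≤ N
  psd : IsPSD Q
  slack : ∀ τ, 0 ≤ sl τ
  eq : ∀ W : B → ℝ, tot W ^ (N - 3) * dens G W +
        (∑ s ∈ range (N + 1), ∑ m ∈ range (N + 1),
          if s + 2 * m ≤ N then tot W ^ (N - (s + 2 * m)) * sos G Q s m W else 0) +
        ∑ τ : Fin N → B, (∏ i, W (τ i)) * sl τ = lam * tot W ^ N

/-- A weight function with extremal density. -/
structure Extr (G : B → B → B → Bool) (S μ : ℝ) (W : ℝ → B → ℝ) : Prop where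
  nonneg : ∀ t, 0 ≤ t → ∀ b, 0 ≤ W t b
  tot : ∀ t, tot (W t) = S * (1 + μ * t)
  dens : ∀ t, dens G (W t) = (S ^ 3 - 4 * S) * (1 + μ * t) ^ 3

theorem ext_value {N : ℕ} (hN : 3 ≤ N) {S : ℝ} (hS : 0 < S) (μ t : ℝ) :
    (S * (1 + μ * t)) ^ (N - 3) * ((S ^ 3 - 4 * S) * (1 + μ * t) ^ 3) =
      (1 - 4 / S ^ 2) * (S * (1 + μ * t)) ^ N := by
  obtain ⟨k, rfl⟩ := Nat.exists_eq_add_of_le hN
  rw [show 3 + k - 3 = k by omega, pow_add (S * (1 + μ * t)) 3 k]
  field_simp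

section cert

variable {G : B → B → B → Bool} {N : ℕ} {Q : (s m : ℕ) → Flag s m → Flag s m → ℝ} {lam S μ : ℝ}
  {sl : (Fin N → B) → ℝ}

omit [DecidableEq B] in
theorem Cert.ext_slack (C : Cert G N Q lam sl) (hS : 1 ≤ S) {W : ℝ → B → ℝ}
    (hE : Extr G S μ W) {t : ℝ} (ht : 0 ≤ t) :
    ∑ τ : Fin N → B, (∏ i, W t (τ i)) * sl τ ≤
      (lam - (1 - 4 / S ^ 2)) * (S * (1 + μ * t)) ^ N := by
  have h := slack_le C.psd (hE.nonneg t ht) (C.eq (W t))
  rw [hE.tot, hE.dens, ext_value C.hN (by linarith)] at h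
  linarith

omit [DecidableEq B] in
theorem Cert.delta_nonneg (C : Cert G N Q lam sl) (hS : 1 ≤ S) {W : ℝ → B → ℝ}
    (hE : Extr G S μ W) : 0 ≤ lam - (1 - 4 / S ^ 2) := by
  have h1 := C.ext_slack hS hE (le_refl (0 : ℝ))
  have h2 : 0 ≤ ∑ τ : Fin N → B, (∏ i, W 0 (τ i)) * sl τ :=
    sum_nonneg fun τ _ => mul_nonneg (prod_nonneg fun i _ => hE.nonneg 0 le_rfl _) (C.slack τ)
  have h3 : (0 : ℝ) < (S * (1 + μ * 0)) ^ N := by
    rw [mul_zero, add_zero, mul_one]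
    positivity
  by_contra hcon
  push Not at hcon
  exact absurd (h2.trans h1) (not_le.2 (mul_neg_of_neg_of_pos hcon h3))

theorem pow_le_big {N : ℕ} {S μ t : ℝ} (hS : 1 ≤ S) (hμ : 0 ≤ μ) (ht0 : 0 ≤ t) (ht1 : t ≤ 1)
    (k : ℕ) (hk : k ≤ N) : (S * (1 + μ * t)) ^ k ≤ (S * (1 + μ)) ^ N := by
  have h1 : 1 + μ * t ≤ 1 + μ := by nlinarith
  have h0 : 0 ≤ 1 + μ * t := by positivity
  calc (S * (1 + μ * t)) ^ k ≤ (S * (1 + μ)) ^ k :=
        pow_le_pow_left₀ (by positivity) (mul_le_mul_of_nonneg_left h1 (by linarith)) k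
    _ ≤ (S * (1 + μ)) ^ N := pow_le_pow_right₀ (by nlinarith) hk

theorem one_le_tot {S μ t : ℝ} (hS : 1 ≤ S) (hμ : 0 ≤ μ) (ht0 : 0 ≤ t) :
    1 ≤ S * (1 + μ * t) := by
  have h1 : 0 ≤ μ * t := mul_nonneg hμ ht0
  nlinarith

omit [DecidableEq B] in
theorem Cert.ext_term (C : Cert G N Q lam sl) (hS : 1 ≤ S) (hμ : 0 ≤ μ) {W : ℝ → B → ℝ}
    (hE : Extr G S μ W) {t : ℝ} (ht0 : 0 ≤ t) (ht1 : t ≤ 1) {s m : ℕ} (hsm : s + 2 * m ≤ N)
    (φ : Fin s → B) :
    (∏ i, W t (φ i)) * qf Q s m (view G m φ (W t)) ≤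
      (lam - (1 - 4 / S ^ 2)) * (S * (1 + μ)) ^ N := by
  have h := term_le C.psd C.slack (hE.nonneg t ht0) (by rw [hE.tot]; exact one_le_tot hS hμ ht0)
    (C.eq (W t)) hsm φ
  rw [hE.tot, hE.dens, ext_value C.hN (by linarith)] at h
  have h2 := mul_le_mul_of_nonneg_left (pow_le_big hS hμ ht0 ht1 N le_rfl)
    (C.delta_nonneg hS hE)
  linarith

end cert

section sys

variable {G : B → B → B → Bool} {dg aP a1 a2 a3 : B → ℕ} {b1 b2 : B → B} {S μ κ : ℝ}
  {N : ℕ} {Q : (s m : ℕ) → Flag s m → Flag s m → ℝ} {lam : ℝ} {sl : (Fin N → B) → ℝ}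

omit [DecidableEq B] in
theorem Sys.ext1 (Y : Sys G dg aP a1 a2 a3 b1 b2 S μ κ) :
    Extr G S μ (fun t => wtg dg a1 t) :=
  ⟨fun _ ht b => wtg_nonneg _ _ ht b, Y.tot1, Y.dens1⟩

omit [DecidableEq B] in
theorem Sys.ext2 (Y : Sys G dg aP a1 a2 a3 b1 b2 S μ κ) :
    Extr G S μ (fun t => wtg dg a2 t) :=
  ⟨fun _ ht b => wtg_nonneg _ _ ht b, Y.tot2, Y.dens2⟩

omit [DecidableEq B] in
theorem Sys.ext3 (Y : Sys G dg aP a1 a2 a3 b1 b2 S μ κ) :
    Extr G S μ (fun t => wtg dg a3 (t / 2)) :=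
  ⟨fun _ ht b => wtg_nonneg _ _ (by linarith) b, Y.tot3, Y.dens3⟩

theorem Sys.per_term (Y : Sys G dg aP a1 a2 a3 b1 b2 S μ κ) (C : Cert G N Q lam sl)
    (hS : 1 ≤ S) (hμ : 0 ≤ μ) (hlam : lam ≤ 2) {t : ℝ} (ht0 : 0 ≤ t) (ht1 : t ≤ 1) {s m : ℕ}
    (hsm : s + 2 * m ≤ N) (φ : Fin s → B) :
    (∏ i, wtg dg aP t (φ i)) * qf Q s m (view G m φ (wtg dg aP t)) ≤
      2 * (S * (1 + μ)) ^ N := by
  have hW := wtg_nonneg dg aP ht0
  have h := term_le C.psd C.slack hW (by rw [Y.totP]; exact one_le_tot hS hμ ht0)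
    (C.eq (wtg dg aP t)) hsm φ
  have hd : 0 ≤ dens G (wtg dg aP t) := by
    unfold Pool.Agent.Zk14.Bar.dens
    refine sum_nonneg fun x _ => sum_nonneg fun y _ => sum_nonneg fun z _ => ?_
    refine mul_nonneg (mul_nonneg (mul_nonneg (hW x) (hW y)) (hW z)) ?_
    unfold bi
    cases G x y z <;> norm_num
  have h1 : 0 ≤ tot (wtg dg aP t) ^ (N - 3) * dens G (wtg dg aP t) := by
    rw [Y.totP]
    have := one_le_tot hS hμ ht0
    exact mul_nonneg (pow_nonneg (by linarith) _) hd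
  rw [Y.totP] at h h1
  have h3 := pow_le_big hS hμ ht0 ht1 N (N := N) le_rfl
  have h4 : 0 ≤ (S * (1 + μ * t)) ^ N := by
    have := one_le_tot hS hμ ht0
    exact pow_nonneg (by linarith) _
  nlinarith

theorem Sys.key_fam (Y : Sys G dg aP a1 a2 a3 b1 b2 S μ κ) (C : Cert G N Q lam sl)
    (hS : 1 ≤ S) (hμ : 0 ≤ μ) (hlam : lam ≤ 2) {a : B → ℕ} {c : ℝ} (hc : 1 / 2 ≤ c)
    (hE : Extr G S μ (fun t => wtg dg a (c * t))) {s m j₀ : ℕ} (hsm : s + 2 * m ≤ N)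
    {φ : Fin s → B} (ha : ∀ i, aP (φ i) ≤ a (φ i))
    (hj : ∀ j : Fin (m + 1), (j : ℕ) < j₀ →
      (1 : ℝ) ^ (j : ℕ) • coef G dg aP m φ j = c ^ (j : ℕ) • coef G dg a m φ j)
    (hkj : 4 ≤ (∑ i, dg (φ i)) + 2 * j₀) {K : ℝ} (hK0 : 0 ≤ K)
    (hK : ∀ (q : (Flag s m → ℝ) → ℝ), IsForm q →
      ∀ (x : Fin (m + 1) → Flag s m → ℝ) (j₀ : ℕ) (C : ℝ),
      (∀ j : Fin (m + 1), (j : ℕ) < j₀ → x j = 0) →
      (∀ i, q (curve x (node m i)) ≤ C) →
      ∀ t, 0 ≤ t → t ≤ 1 → q (curve x t) ≤ K * C * t ^ (2 * j₀))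
    {t : ℝ} (ht0 : 0 < t) (ht1 : t ≤ 1) :
    (∏ i, wtg dg aP t (φ i)) * qf Q s m (view G m φ (wtg dg aP t)) ≤
      2 ^ (N + 1) * (S * (1 + μ)) ^ N * (lam - (1 - 4 / S ^ 2)) +
        2 * K * (8 * (S * (1 + μ)) ^ N * (2 * (N + 1)) ^ N) * t ^ 4 := by
  have hk : ∑ i, dg (φ i) ≤ N := by
    calc ∑ i, dg (φ i) ≤ ∑ i : Fin s, 1 := sum_le_sum fun i _ => Y.dg_le _
      _ = s := by simp
      _ ≤ N := by omega
  have hδ := C.delta_nonneg hS hE
  set A : ℝ := ∏ i, (aP (φ i) : ℝ) with hA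
  have hA0 : 0 ≤ A := prod_nonneg fun i _ => Nat.cast_nonneg _
  have hq := qf_isForm C.psd s m
  have hBd : 0 ≤ (S * (1 + μ)) ^ N := by positivity
  have hS2 : 0 ≤ 4 / S ^ 2 := by positivity
  have hS3 : 4 / S ^ 2 ≤ 4 := by
    rw [div_le_iff₀ (by positivity)]
    nlinarith
  have hview : ∀ u : ℝ, view G m φ (wtg dg aP u) =
      curve (fun j : Fin (m + 1) => (1 : ℝ) ^ (j : ℕ) • coef G dg aP m φ j) u := by
    intro u
    have := view_wtg (G := G) Y.dg_le aP m φ 1 u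
    rwa [one_mul] at this
  have hδ2 : lam - (1 - 4 / S ^ 2) ≤ 5 := by linarith
  by_cases hbig : lam - (1 - 4 / S ^ 2) ≤ 2
  · have h := key_gen (N := N) (m := m) (k := ∑ i, dg (φ i)) (j₀ := j₀)
      (Bd := (S * (1 + μ)) ^ N) hK0 hBd (isForm_scale hq hA0)
      (hK _ (isForm_scale hq hA0))
      (fun j : Fin (m + 1) => (1 : ℝ) ^ (j : ℕ) • coef G dg aP m φ j)
      (fun j : Fin (m + 1) => c ^ (j : ℕ) • coef G dg a m φ j) hj
      (δ := lam - (1 - 4 / S ^ 2)) hbig (by omega) hk hkj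
      (fun u hu0 hu1 => by
        have := Y.per_term C hS hμ hlam hu0.le hu1 hsm φ
        rw [prod_wtg, hview] at this
        calc _ = (∏ i, (aP (φ i) : ℝ)) * u ^ (∑ i, dg (φ i)) *
              qf Q s m (curve (fun j : Fin (m + 1) => (1 : ℝ) ^ (j : ℕ) • coef G dg aP m φ j) u) :=
              by ring
          _ ≤ _ := this)
      (fun u hu0 hu1 => by
        have h1 := C.ext_term hS hμ hE hu0.le hu1 hsm φ
        rw [prod_wtg, view_wtg Y.dg_le] at h1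
        set X := qf Q s m (curve (fun j : Fin (m + 1) => c ^ (j : ℕ) • coef G dg a m φ j) u)
          with hX
        have hX0 : 0 ≤ X := hq.nonneg _
        have h2 : A ≤ ∏ i, (a (φ i) : ℝ) :=
          prod_le_prod (fun i _ => Nat.cast_nonneg _) fun i _ => by exact_mod_cast ha i
        have h3 : (1 : ℝ) ≤ 2 ^ N * c ^ (∑ i, dg (φ i)) := by
          have h3 : (1 / 2 : ℝ) ^ (∑ i, dg (φ i)) ≤ c ^ (∑ i, dg (φ i)) :=
            pow_le_pow_left₀ (by norm_num) hc _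
          have h4 : (1 / 2 : ℝ) ^ N ≤ (1 / 2) ^ (∑ i, dg (φ i)) :=
            pow_le_pow_of_le_one (by norm_num) (by norm_num) hk
          calc (1 : ℝ) = 2 ^ N * (1 / 2) ^ N := by rw [← mul_pow]; norm_num
            _ ≤ _ := mul_le_mul_of_nonneg_left (h4.trans h3) (by positivity)
        have hu : 0 ≤ u ^ (∑ i, dg (φ i)) := by positivity
        calc u ^ (∑ i, dg (φ i)) * (A * X) = 1 * (A * (u ^ (∑ i, dg (φ i)) * X)) := by ring
          _ ≤ (2 ^ N * c ^ (∑ i, dg (φ i))) * (A * (u ^ (∑ i, dg (φ i)) * X)) :=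
            mul_le_mul_of_nonneg_right h3 (mul_nonneg hA0 (mul_nonneg hu hX0))
          _ ≤ (2 ^ N * c ^ (∑ i, dg (φ i))) *
              ((∏ i, (a (φ i) : ℝ)) * (u ^ (∑ i, dg (φ i)) * X)) := by
            refine mul_le_mul_of_nonneg_left
              (mul_le_mul_of_nonneg_right h2 (mul_nonneg hu hX0)) ?_
            have : 0 ≤ c := by linarith
            positivity
          _ = 2 ^ N * ((∏ i, (a (φ i) : ℝ)) * (c * u) ^ (∑ i, dg (φ i)) * X) := by
            rw [mul_pow]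
            ring
          _ ≤ _ := mul_le_mul_of_nonneg_left h1 (by positivity))
      ht0 ht1
    calc _ = t ^ (∑ i, dg (φ i)) * (A *
          qf Q s m (curve (fun j : Fin (m + 1) => (1 : ℝ) ^ (j : ℕ) • coef G dg aP m φ j) t)) := by
          rw [prod_wtg, hview]
          ring
      _ ≤ _ := h
  · push Not at hbig
    have h1 := Y.per_term C hS hμ hlam ht0.le ht1 hsm φ
    have h2 : (2 : ℝ) ≤ 2 ^ (N + 1) := by
      calc (2 : ℝ) = 2 ^ 1 := by norm_num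
        _ ≤ 2 ^ (N + 1) := pow_le_pow_right₀ (by norm_num) (by omega)
    have h3 : 2 * (S * (1 + μ)) ^ N ≤
        2 ^ (N + 1) * (S * (1 + μ)) ^ N * (lam - (1 - 4 / S ^ 2)) := by
      calc 2 * (S * (1 + μ)) ^ N ≤ 2 ^ (N + 1) * (S * (1 + μ)) ^ N :=
            mul_le_mul_of_nonneg_right h2 hBd
        _ = 2 ^ (N + 1) * (S * (1 + μ)) ^ N * 1 := by ring
        _ ≤ _ := mul_le_mul_of_nonneg_left (by linarith) (by positivity)
    have h4 : 0 ≤ 2 * K * (8 * (S * (1 + μ)) ^ N * (2 * ((N : ℝ) + 1)) ^ N) * t ^ 4 := by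
      positivity
    linarith

theorem Sys.key (Y : Sys G dg aP a1 a2 a3 b1 b2 S μ κ) (C : Cert G N Q lam sl)
    (hS : 1 ≤ S) (hμ : 0 ≤ μ) (hlam : lam ≤ 2) {s m : ℕ} (hsm : s + 2 * m ≤ N)
    (φ : Fin s → B) {K : ℝ} (hK0 : 0 ≤ K)
    (hK : ∀ (q : (Flag s m → ℝ) → ℝ), IsForm q →
      ∀ (x : Fin (m + 1) → Flag s m → ℝ) (j₀ : ℕ) (C : ℝ),
      (∀ j : Fin (m + 1), (j : ℕ) < j₀ → x j = 0) →
      (∀ i, q (curve x (node m i)) ≤ C) →
      ∀ t, 0 ≤ t → t ≤ 1 → q (curve x t) ≤ K * C * t ^ (2 * j₀))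
    {t : ℝ} (ht0 : 0 < t) (ht1 : t ≤ 1) :
    (∏ i, wtg dg aP t (φ i)) * qf Q s m (view G m φ (wtg dg aP t)) ≤
      2 ^ (N + 1) * (S * (1 + μ)) ^ N * (lam - (1 - 4 / S ^ 2)) +
        2 * K * (8 * (S * (1 + μ)) ^ N * (2 * (N + 1)) ^ N) * t ^ 4 := by
  have hδ := C.delta_nonneg hS Y.ext1
  have hBd : 0 ≤ (S * (1 + μ)) ^ N := by positivity
  by_cases hz : ∃ i, aP (φ i) = 0
  · obtain ⟨i, hi⟩ := hz
    have h0 : ∏ i, wtg dg aP t (φ i) = 0 := by
      refine prod_eq_zero (mem_univ i) ?_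
      unfold wtg
      rw [hi]
      norm_num
    rw [h0, zero_mul]
    have h1 : 0 ≤ 2 ^ (N + 1) * (S * (1 + μ)) ^ N * (lam - (1 - 4 / S ^ 2)) :=
      mul_nonneg (by positivity) hδ
    have h2 : 0 ≤ 2 * K * (8 * (S * (1 + μ)) ^ N * (2 * ((N : ℝ) + 1)) ^ N) * t ^ 4 := by
      positivity
    linarith
  push Not at hz
  have large1 : ∀ x, dg x = 0 → a1 x = aP x := fun x hx => by
    have h1 := Y.comp1.supp x
    rwa [Y.comp1.fix x hx] at h1
  have large2 : ∀ x, dg x = 0 → a2 x = aP x := fun x hx => by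
    have h1 := Y.comp2.supp x
    rwa [Y.comp2.fix x hx] at h1
  have e1 : Extr G S μ (fun t => wtg dg a1 (1 * t)) := by
    simp only [one_mul]
    exact Y.ext1
  have e2 : Extr G S μ (fun t => wtg dg a2 (1 * t)) := by
    simp only [one_mul]
    exact Y.ext2
  have e3 : Extr G S μ (fun t => wtg dg a3 (1 / 2 * t)) := by
    have h1 : (fun t : ℝ => wtg dg a3 (1 / 2 * t)) = fun t : ℝ => wtg dg a3 (t / 2) := by
      funext t
      congr 1
      ring
    rw [h1]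
    exact Y.ext3
  by_cases hk : ∑ i, dg (φ i) ≤ 1
  · by_cases h1 : ∀ i, Ok G dg aP b1 (φ i) ∧ aP (φ i) ≤ a1 (φ i)
    · refine Y.key_fam C hS hμ hlam (by norm_num) e1 (j₀ := 2) hsm (fun i => (h1 i).2) ?_
        (by omega) hK0 hK ht0 ht1
      intro j hj
      rw [one_pow, one_smul, one_smul]
      have hj' : (j : ℕ) = 0 ∨ (j : ℕ) = 1 := by omega
      rcases hj' with hj' | hj'
      · rw [hj']
        exact coef_zero (fun b hb => (large1 b hb).symm) m φ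
      · rw [hj']
        exact coef_one Y.symm Y.comp1 m φ (fun i => (h1 i).1) hk Y.large1
    · push Not at h1
      obtain ⟨i₀, hi₀⟩ := h1
      have h3 : ¬ (Ok G dg aP b1 (φ i₀) ∧ aP (φ i₀) ≤ a1 (φ i₀)) := fun h =>
        absurd h.2 (not_le.2 (hi₀ h.1))
      have h4 : dg (φ i₀) = 1 := by
        have h5 := Y.dg_le (φ i₀)
        by_contra hcon
        have h6 : dg (φ i₀) = 0 := by omega
        exact h3 ⟨Y.large1 _ h6, (large1 _ h6).ge⟩
      have h6 : ∀ i, Ok G dg aP b2 (φ i) ∧ aP (φ i) ≤ a2 (φ i) := by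
        intro i
        by_cases hi : i = i₀
        · rw [hi]
          exact Y.tiny _ (hz i₀) h3
        · have h7 : dg (φ i₀) + ∑ i ∈ univ.erase i₀, dg (φ i) = ∑ i, dg (φ i) :=
            add_sum_erase univ (fun i => dg (φ i)) (mem_univ i₀)
          have h8 : dg (φ i) ≤ ∑ i ∈ univ.erase i₀, dg (φ i) :=
            single_le_sum (f := fun i => dg (φ i)) (fun i _ => Nat.zero_le _)
              (mem_erase.2 ⟨hi, mem_univ i⟩)
          have h9 : dg (φ i) = 0 := by omega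
          exact ⟨Y.large2 _ h9, (large2 _ h9).ge⟩
      refine Y.key_fam C hS hμ hlam (by norm_num) e2 (j₀ := 2) hsm (fun i => (h6 i).2) ?_
        (by omega) hK0 hK ht0 ht1
      intro j hj
      rw [one_pow, one_smul, one_smul]
      have hj' : (j : ℕ) = 0 ∨ (j : ℕ) = 1 := by omega
      rcases hj' with hj' | hj'
      · rw [hj']
        exact coef_zero (fun b hb => (large2 b hb).symm) m φ
      · rw [hj']
        exact coef_one Y.symm Y.comp2 m φ (fun i => (h6 i).1) hk Y.large2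
  · refine Y.key_fam C hS hμ hlam le_rfl e3 (j₀ := 1) hsm (fun i => Y.a3_ge _) ?_ (by omega)
      hK0 hK ht0 ht1
    intro j hj
    have hj' : (j : ℕ) = 0 := by omega
    rw [hj', pow_zero, pow_zero, one_smul, one_smul]
    exact coef_zero (fun b hb => (Y.a3_large b hb).symm) m φ

theorem Sys.slack_P (Y : Sys G dg aP a1 a2 a3 b1 b2 S μ κ) (C : Cert G N Q lam sl)
    (hS : 1 ≤ S) (hμ : 0 ≤ μ) {t : ℝ} (ht0 : 0 < t) (ht1 : t ≤ 1) :
    ∑ τ : Fin N → B, (∏ i, wtg dg aP t (τ i)) * sl τ ≤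
      2 ^ N * (S * (1 + μ)) ^ N * (lam - (1 - 4 / S ^ 2)) := by
  have h1 : ∀ b, wtg dg aP t b ≤ 2 * wtg dg a3 (t / 2) b := by
    intro b
    unfold wtg
    have h2 : (aP b : ℝ) ≤ a3 b := by exact_mod_cast Y.a3_ge b
    have h3 : (0 : ℝ) ≤ a3 b := Nat.cast_nonneg _
    have h4 : dg b = 0 ∨ dg b = 1 := by have := Y.dg_le b; omega
    rcases h4 with h4 | h4 <;> rw [h4]
    · rw [pow_zero, pow_zero]
      linarith
    · rw [pow_one, pow_one]
      nlinarith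
  have h2 : ∀ τ : Fin N → B, ∏ i, wtg dg aP t (τ i) ≤
      2 ^ N * ∏ i, wtg dg a3 (t / 2) (τ i) := by
    intro τ
    calc ∏ i, wtg dg aP t (τ i) ≤ ∏ i, (2 * wtg dg a3 (t / 2) (τ i)) :=
          prod_le_prod (fun i _ => wtg_nonneg _ _ ht0.le _) fun i _ => h1 _
      _ = _ := by
          rw [prod_mul_distrib, prod_const, card_univ, Fintype.card_fin]
  calc ∑ τ : Fin N → B, (∏ i, wtg dg aP t (τ i)) * sl τ
      ≤ ∑ τ : Fin N → B, (2 ^ N * ∏ i, wtg dg a3 (t / 2) (τ i)) * sl τ :=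
        sum_le_sum fun τ _ => mul_le_mul_of_nonneg_right (h2 τ) (C.slack τ)
    _ = 2 ^ N * ∑ τ : Fin N → B, (∏ i, wtg dg a3 (t / 2) (τ i)) * sl τ := by
        rw [mul_sum]
        exact sum_congr rfl fun τ _ => by ring
    _ ≤ 2 ^ N * ((lam - (1 - 4 / S ^ 2)) * (S * (1 + μ * t)) ^ N) :=
        mul_le_mul_of_nonneg_left (C.ext_slack hS Y.ext3 ht0.le) (by positivity)
    _ ≤ 2 ^ N * ((lam - (1 - 4 / S ^ 2)) * (S * (1 + μ)) ^ N) :=
        mul_le_mul_of_nonneg_left (mul_le_mul_of_nonneg_left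
          (pow_le_big hS hμ ht0.le ht1 N le_rfl) (C.delta_nonneg hS Y.ext3)) (by positivity)
    _ = _ := by ring

theorem Sys.final (Y : Sys G dg aP a1 a2 a3 b1 b2 S μ κ) (C : Cert G N Q lam sl)
    (hS : 1 ≤ S) (hμ : 0 ≤ μ) (hκ : 0 ≤ κ) (hlam : lam ≤ 2) {K : ℝ} (hK0 : 0 ≤ K)
    (hK : ∀ (s m : ℕ), s + 2 * m ≤ N → ∀ (q : (Flag s m → ℝ) → ℝ), IsForm q →
      ∀ (x : Fin (m + 1) → Flag s m → ℝ) (j₀ : ℕ) (C : ℝ),
      (∀ j : Fin (m + 1), (j : ℕ) < j₀ → x j = 0) →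
      (∀ i, q (curve x (node m i)) ≤ C) →
      ∀ t, 0 ≤ t → t ≤ 1 → q (curve x t) ≤ K * C * t ^ (2 * j₀))
    {t : ℝ} (ht0 : 0 < t) (ht1 : t ≤ 1) :
    κ * t ^ 3 ≤ (((N : ℝ) + 1) * (N + 1) * ((S * (1 + μ)) ^ N *
        ((Fintype.card B + 1 : ℝ) ^ N *
        (2 ^ (N + 1) * (S * (1 + μ)) ^ N +
          2 * K * (8 * (S * (1 + μ)) ^ N * (2 * (N + 1)) ^ N)))) +
        2 ^ N * (S * (1 + μ)) ^ N) *
      ((lam - (1 - 4 / S ^ 2)) + t ^ 4) := by
  have hδ := C.delta_nonneg hS Y.ext1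
  set δ := lam - (1 - 4 / S ^ 2) with hδdef
  set Bd : ℝ := (S * (1 + μ)) ^ N with hBd
  have hBd0 : 0 ≤ Bd := by positivity
  set C₀ : ℝ := 8 * Bd * (2 * ((N : ℝ) + 1)) ^ N with hC₀
  have hC₀0 : 0 ≤ C₀ := by positivity
  have ht4 : 0 ≤ t ^ 4 := by positivity
  set M : ℝ := 2 ^ (N + 1) * Bd * δ + 2 * K * C₀ * t ^ 4 with hM
  have hM0 : 0 ≤ M := by positivity
  have hone : (1 : ℝ) ≤ S * (1 + μ * t) := one_le_tot hS hμ ht0.le
  have hpos : (0 : ℝ) ≤ S * (1 + μ * t) := by linarith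
  have hsos : ∀ s m, (if s + 2 * m ≤ N then
      tot (wtg dg aP t) ^ (N - (s + 2 * m)) * sos G Q s m (wtg dg aP t) else 0) ≤
      Bd * ((Fintype.card B + 1 : ℝ) ^ N * M) := by
    intro s m
    split_ifs with hsm
    · rw [Y.totP]
      have h1 : sos G Q s m (wtg dg aP t) ≤ (Fintype.card B + 1 : ℝ) ^ N * M := by
        unfold sos
        calc ∑ φ : Fin s → B, (∏ i, wtg dg aP t (φ i)) *
                qf Q s m (view G m φ (wtg dg aP t))
            ≤ ∑ φ : Fin s → B, M :=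
              sum_le_sum fun φ _ => Y.key C hS hμ hlam hsm φ hK0 (hK s m hsm) ht0 ht1
          _ = (Fintype.card B : ℝ) ^ s * M := by
              rw [sum_const, card_univ, nsmul_eq_mul]
              simp
          _ ≤ (Fintype.card B + 1 : ℝ) ^ s * M := by
              refine mul_le_mul_of_nonneg_right (pow_le_pow_left₀ (by positivity) ?_ s) hM0
              linarith
          _ ≤ (Fintype.card B + 1 : ℝ) ^ N * M := by
              refine mul_le_mul_of_nonneg_right (pow_le_pow_right₀ ?_ ?_) hM0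
              · have : (0 : ℝ) ≤ Fintype.card B := Nat.cast_nonneg _
                linarith
              · omega
      exact mul_le_mul (pow_le_big hS hμ ht0.le ht1 _ (Nat.sub_le _ _)) h1
        (sos_nonneg G C.psd s m (wtg_nonneg _ _ ht0.le)) (by positivity)
    · positivity
  have hsum : (∑ s ∈ range (N + 1), ∑ m ∈ range (N + 1), if s + 2 * m ≤ N then
      tot (wtg dg aP t) ^ (N - (s + 2 * m)) * sos G Q s m (wtg dg aP t) else 0) ≤
      ((N : ℝ) + 1) * (N + 1) * (Bd * ((Fintype.card B + 1 : ℝ) ^ N * M)) := by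
    calc _ ≤ ∑ s ∈ range (N + 1), ∑ m ∈ range (N + 1), Bd * ((Fintype.card B + 1 : ℝ) ^ N * M) :=
          sum_le_sum fun s _ => sum_le_sum fun m _ => hsos s m
      _ = _ := by
          rw [sum_const, sum_const, card_range, nsmul_eq_mul, nsmul_eq_mul]
          push_cast
          ring
  have heq := C.eq (wtg dg aP t)
  rw [Y.totP] at heq hsum
  rw [Y.densP, mul_sub, ext_value C.hN (by linarith)] at heq
  have hsl := Y.slack_P C hS hμ ht0 ht1
  rw [← hδdef] at hsl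
  have hT : (1 : ℝ) ≤ (S * (1 + μ * t)) ^ (N - 3) := one_le_pow₀ hone
  have hTN : 0 ≤ (S * (1 + μ * t)) ^ N := by positivity
  have ht3 : 0 ≤ κ * t ^ 3 := by positivity
  have h6 : κ * t ^ 3 ≤ (S * (1 + μ * t)) ^ (N - 3) * (κ * t ^ 3) := by nlinarith
  have hδT : 0 ≤ δ * (S * (1 + μ * t)) ^ N := mul_nonneg hδ hTN
  have hlamT : lam * (S * (1 + μ * t)) ^ N - (1 - 4 / S ^ 2) * (S * (1 + μ * t)) ^ N =
      δ * (S * (1 + μ * t)) ^ N := by rw [hδdef]; ring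
  have hmain : κ * t ^ 3 ≤ ((N : ℝ) + 1) * (N + 1) * (Bd * ((Fintype.card B + 1 : ℝ) ^ N * M)) +
      2 ^ N * Bd * δ := by linarith
  refine hmain.trans ?_
  have hMle : M ≤ (2 ^ (N + 1) * Bd + 2 * K * C₀) * (δ + t ^ 4) := by
    rw [hM]
    have e1 : 0 ≤ (2 : ℝ) ^ (N + 1) * Bd * t ^ 4 := by positivity
    have e2 : 0 ≤ 2 * K * C₀ * δ := by positivity
    nlinarith
  have e3 : (2 : ℝ) ^ N * Bd * δ ≤ 2 ^ N * Bd * (δ + t ^ 4) :=
    mul_le_mul_of_nonneg_left (by linarith) (by positivity)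
  have e4 : ((N : ℝ) + 1) * (N + 1) * (Bd * ((Fintype.card B + 1 : ℝ) ^ N * M)) ≤
      ((N : ℝ) + 1) * (N + 1) * (Bd * ((Fintype.card B + 1 : ℝ) ^ N *
        ((2 ^ (N + 1) * Bd + 2 * K * C₀) * (δ + t ^ 4)))) := by
    refine mul_le_mul_of_nonneg_left (mul_le_mul_of_nonneg_left
      (mul_le_mul_of_nonneg_left hMle (by positivity)) (by positivity)) (by positivity)
  calc _ ≤ _ := add_le_add e4 e3
    _ = _ := by ring

/-- The general barrier. -/
theorem Sys.barrier (Y : Sys G dg aP a1 a2 a3 b1 b2 S μ κ) (hS : 1 ≤ S) (hμ : 0 ≤ μ)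
    (hκ : 0 < κ) (N : ℕ) (hN : 3 ≤ N) : ∃ ε : ℝ, 0 < ε ∧
    ∀ Q : (s m : ℕ) → Flag s m → Flag s m → ℝ, IsPSD Q → ∀ lam : ℝ,
      (∀ τ : Fin N → B, value Q (Str G τ) ≤ lam) → 1 - 4 / S ^ 2 + ε ≤ lam := by
  choose K hK0 hK using core
  set KN : ℝ := ∑ m ∈ range (N + 1), K m with hKN
  have hKN0 : 0 ≤ KN := sum_nonneg fun m _ => hK0 m
  have hKle : ∀ m, m ≤ N → K m ≤ KN := fun m hm =>
    single_le_sum (f := K) (fun m _ => hK0 m) (mem_range.2 (by omega))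
  set A : ℝ := ((N : ℝ) + 1) * (N + 1) * ((S * (1 + μ)) ^ N *
        ((Fintype.card B + 1 : ℝ) ^ N *
        (2 ^ (N + 1) * (S * (1 + μ)) ^ N +
          2 * KN * (8 * (S * (1 + μ)) ^ N * (2 * (N + 1)) ^ N)))) +
        2 ^ N * (S * (1 + μ)) ^ N with hA
  have hBd1 : 1 ≤ (S * (1 + μ)) ^ N := one_le_pow₀ (by nlinarith)
  have hA1 : 1 ≤ A := by
    have h1 : (1 : ℝ) ≤ 2 ^ N := one_le_pow₀ (by norm_num)
    have h3 : (0 : ℝ) ≤ ((N : ℝ) + 1) * (N + 1) * ((S * (1 + μ)) ^ N *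
        ((Fintype.card B + 1 : ℝ) ^ N *
        (2 ^ (N + 1) * (S * (1 + μ)) ^ N +
          2 * KN * (8 * (S * (1 + μ)) ^ N * (2 * (N + 1)) ^ N)))) := by positivity
    have h4 : (1 : ℝ) ≤ 2 ^ N * (S * (1 + μ)) ^ N := by nlinarith
    linarith
  have hA0 : 0 < A := by linarith
  set η : ℝ := min 1 (κ / (2 * A)) with hη
  have hη0 : 0 < η := lt_min one_pos (by positivity)
  have hη1 : η ≤ 1 := min_le_left _ _
  have hη2 : η ≤ κ / (2 * A) := min_le_right _ _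
  refine ⟨min 1 (κ * η ^ 3 / (2 * A)), lt_min one_pos (by positivity), ?_⟩
  intro Q hQ lam hlam
  by_cases h2 : lam ≤ 2
  · obtain ⟨sl, hsl, heq⟩ := evaluate hN Y.symm hlam
    have C : Cert G N Q lam sl := ⟨hN, hQ, hsl, heq⟩
    have hfin := Y.final C hS hμ hκ.le h2 hKN0 (fun s m hsm q hq x j₀ C hx hC t ht0 ht1 => by
      have h3 := hK m (Flag s m → ℝ) q hq x j₀ C hx hC t ht0 ht1
      have hC0 : 0 ≤ C := (hq.nonneg _).trans (hC 0)
      have h4 : K m * C * t ^ (2 * j₀) ≤ KN * C * t ^ (2 * j₀) := by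
        refine mul_le_mul_of_nonneg_right (mul_le_mul_of_nonneg_right (hKle m (by omega)) hC0) ?_
        positivity
      exact h3.trans h4) hη0 hη1
    rw [← hA] at hfin
    have h5 : A * η ^ 4 ≤ κ * η ^ 3 / 2 := by
      have h6 : A * η ≤ κ / 2 := by
        calc A * η ≤ A * (κ / (2 * A)) := mul_le_mul_of_nonneg_left hη2 hA0.le
          _ = κ / 2 := by field_simp
      calc A * η ^ 4 = (A * η) * η ^ 3 := by ring
        _ ≤ (κ / 2) * η ^ 3 := mul_le_mul_of_nonneg_right h6 (by positivity)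
        _ = _ := by ring
    have h7 : κ * η ^ 3 / 2 ≤ A * (lam - (1 - 4 / S ^ 2)) := by
      rw [mul_add] at hfin
      linarith
    have h8 : κ * η ^ 3 / (2 * A) ≤ lam - (1 - 4 / S ^ 2) := by
      rw [div_le_iff₀ (by positivity)]
      linarith
    have h10 := min_le_right (1 : ℝ) (κ * η ^ 3 / (2 * A))
    linarith
  · push Not at h2
    have h10 := min_le_left (1 : ℝ) (κ * η ^ 3 / (2 * A))
    have h11 : 0 ≤ 4 / S ^ 2 := by positivity
    linarith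

end sys

end Pool.Agent.Zk14.BarM
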